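import Mathlib
import Pool.Agent.H348R6.GM1

/-!
# The set-splitting game: player A has no winning strategy on an uncountable set

Let `E` be any uncountable set. Then player A has no winning strategy in the game `G(E)` in which
two players take turns in picking one of the two parts of the last splitting and splitting it
again, and A wants the intersection of the picked sets to be empty. This is proved in ZFC.

Idea: take a function `d : E → 2^ω` with uncountable range. Given a strategy of A, let B split only
by the digits of `d`. After each finite history the sides which A does not pick, one for each
digit, form a single point of `2^ω`; B can keep every point `a` for which `d a` is none of these
countably many points.
-/

set_option autoImplicit false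

namespace Pool.Agent.Results.MP_053b7f_lc.NoStrategyForA

open Pool.Agent.H348R6.GM

universe u

theorem result (E : Type u) [Uncountable E] : ¬ AWins E := not_AWins E

end Pool.Agent.Results.MP_053b7f_lc.NoStrategyForA
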